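import Mathlib

/-!
# The equation `(N - p) (1 + p + ... + p ^ (m - 1)) = 1 + d₁ + d₂`

Here `N = 2 ^ (k + 1)`, `m = n + 3`, `P = p ^ (n + 1)`, `a = 1 + p + ... + p ^ n`, so that
`p a + 1 = P + a` and `1 + p + ... + p ^ (m - 1) = a + P + P p`.
-/

set_option autoImplicit false

namespace Pool.Agent.L7h10.TwoNear

/-- both exponents of `p` at most `m - 2` -/
theorem case0 {p P a N d1 d2 : ℤ} (hp : 3 ≤ p) (hP : p ≤ P) (ha : 1 ≤ a)
    (hh : p + 1 ≤ N) (e1 : 2 * d1 ≤ N * P) (e2 : 2 * d2 ≤ N * P) (hne : d1 ≠ d2)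
    (h : (N - p) * (a + P + P * p) = 1 + d1 + d2) : False := by
  have h1 : 1 + d1 + d2 ≤ N * P := by
    rcases lt_or_gt_of_ne hne with h1 | h1 <;> omega
  have hp0 : 0 < p := by linarith
  have hP0 : 0 < P := by linarith
  have h2 : 0 < P * p := by positivity
  have h3 : 0 ≤ (N - p - 1) * (a + P * p) := mul_nonneg (by linarith) (by linarith)
  nlinarith

theorem bound1 {p P a N V d : ℤ} (hp : 3 ≤ p) (hP : p ≤ P) (ha : 1 ≤ a)
    (e1 : 2 * V ≤ N) (e2 : 2 * d ≤ N * P)
    (h : (N - p) * (a + P + P * p) = 1 + V * (P * p) + d) : N ≤ 2 * p := by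
  by_contra hcon
  have hcon : 2 * p + 1 ≤ N := by omega
  have hp0 : 0 < p := by linarith
  have hP0 : 0 < P := by linarith
  have ha0 : 0 < a := by linarith
  have hPp : 0 < P * p := by positivity
  have h1 : 2 * V * (P * p) ≤ N * (P * p) := mul_le_mul_of_nonneg_right e1 hPp.le
  have h3 : 0 ≤ (N - 2 * p - 1) * (2 * a + P + P * p) := mul_nonneg (by linarith) (by linarith)
  have h4 : 0 < a * p := by positivity
  nlinarith

theorem cop_s {p P a : ℤ} (n : ℕ) (hPa : p * a + 1 = P + a) :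
    IsCoprime (p ^ n) (a + P + P * p) := by
  apply IsCoprime.pow_left
  exact ⟨P * p, 1 - p, by linear_combination (-1 : ℤ) * hPa⟩

theorem cop_a {p P a : ℤ} {n : ℕ} (m : ℕ) (hP : P = p ^ (n + 1)) (hPa : p * a + 1 = P + a) :
    IsCoprime (p ^ m) a := by
  apply IsCoprime.pow_left
  refine ⟨p ^ n - a, 1, ?_⟩
  rw [hP] at hPa
  linear_combination (-1 : ℤ) * hPa

/-- a power of `p` up to `p ^ m` that divides `d₁` and `d₂` divides `N - 1` -/
theorem dvd_X {p P a N d1 d2 : ℤ} {n b : ℕ} (hP : P = p ^ (n + 1)) (hPa : p * a + 1 = P + a)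
    (hb : b ≤ n + 3) (h1 : p ^ b ∣ d1) (h2 : p ^ b ∣ d2)
    (h : (N - p) * (a + P + P * p) = 1 + d1 + d2) : p ^ b ∣ N - 1 := by
  have h3 : (N - 1) * (a + P + P * p) = p ^ (n + 3) + d1 + d2 := by
    rw [hP] at h hPa ⊢
    linear_combination h + hPa
  have h4 : p ^ b ∣ (N - 1) * (a + P + P * p) := by
    rw [h3]
    exact dvd_add (dvd_add (pow_dvd_pow p hb) h1) h2
  exact (cop_s b hPa).dvd_of_dvd_mul_right h4

/-- `b₁ = m - 1`, `b₂ = m - 1` -/
theorem case1a {p P a N V1 V2 : ℤ} {n : ℕ} (hp : 3 ≤ p) (hPp : p ≤ P) (ha : 1 ≤ a)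
    (hP : P = p ^ (n + 1)) (hPa : p * a + 1 = P + a)
    (hh : p + 1 ≤ N) (e : V1 + V2 ≤ N - 1)
    (h : (N - p) * (a + P + P * p) = 1 + V1 * (P * p) + V2 * (P * p)) : False := by
  have e0 : P * p = p ^ (n + 2) := by rw [hP]; ring
  have h1 : P * p ∣ N - 1 := by
    rw [e0]
    refine dvd_X hP hPa (by omega) ?_ ?_ h
    · rw [e0]; exact Dvd.intro_left _ rfl
    · rw [e0]; exact Dvd.intro_left _ rfl
  have h2 : P * p ≤ N - 1 := Int.le_of_dvd (by linarith) h1
  have hp0 : 0 < p := by linarith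
  have hP0 : 0 < P := by linarith
  have hPp0 : 0 < P * p := by positivity
  have h3 : (V1 + V2) * (P * p) ≤ (N - 1) * (P * p) := mul_le_mul_of_nonneg_right e hPp0.le
  have h4 : (N - 1) * (a + P) ≤ P * p * p := by nlinarith
  have h5 : (P * p) * (a + P) ≤ (N - 1) * (a + P) := mul_le_mul_of_nonneg_right h2 (by linarith)
  have h6 : (P * p) * (a + P) ≤ (P * p) * p := h5.trans h4
  have h7 := le_of_mul_le_mul_left h6 hPp0
  linarith

/-- `b₁ = m - 1`, `1 ≤ b₂ ≤ m - 2` -/
theorem case1b {p P a N V1 V2 : ℤ} {n b : ℕ} (hp : 3 ≤ p) (hPp : p ≤ P) (ha : 1 ≤ a)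
    (hP : P = p ^ (n + 1)) (hPa : p * a + 1 = P + a) (hV1 : 1 ≤ V1) (hV2 : 1 ≤ V2)
    (hn : 1 ≤ n → p + 1 ≤ a)
    (hh : p + 1 ≤ N) (e1 : 2 * V1 ≤ N) (e2 : 2 * V2 ≤ N) (hb : b + 1 ≤ n + 1)
    (h : (N - p) * (a + P + P * p) = 1 + V1 * (P * p) + V2 * p ^ (b + 1)) :
    n = 0 ∧ N = p + 1 := by
  have hp0 : 0 < p := by linarith
  have hP0 : 0 < P := by linarith
  have hPp0 : 0 < P * p := by positivity
  have hle : p ^ (b + 1) ≤ P := by
    rw [hP]
    exact pow_le_pow_right₀ (by linarith) hb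
  have hd2 : 2 * (V2 * p ^ (b + 1)) ≤ N * P := by
    have h1 : 2 * V2 * p ^ (b + 1) ≤ N * p ^ (b + 1) := mul_le_mul_of_nonneg_right e2 (by positivity)
    have h2 : N * p ^ (b + 1) ≤ N * P := mul_le_mul_of_nonneg_left hle (by linarith)
    linarith
  have hN := bound1 hp hPp ha e1 hd2 h
  have hd : p ∣ N - 1 := by
    have := dvd_X (b := 1) hP hPa (by omega) (d1 := V1 * (P * p)) (d2 := V2 * p ^ (b + 1))
      ⟨V1 * P, by ring⟩ ⟨V2 * p ^ b, by ring⟩ h
    rwa [pow_one] at this
  have hN1 : N = p + 1 := by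
    obtain ⟨y, hy⟩ := hd
    have h1 : 1 ≤ y := by
      by_contra hcon
      have : y ≤ 0 := by omega
      nlinarith
    have h2 : y < 2 := by
      by_contra hcon
      have : 2 ≤ y := by omega
      nlinarith
    have : y = 1 := by omega
    subst this
    linarith
  have hV11 : V1 = 1 := by
    by_contra hcon
    have h1 : 2 ≤ V1 := by omega
    have h2 : 2 * (P * p) ≤ V1 * (P * p) := mul_le_mul_of_nonneg_right h1 hPp0.le
    have h3 : 0 < V2 * p ^ (b + 1) := by positivity
    rw [hN1] at h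
    nlinarith
  rw [hN1, hV11] at h
  have h4 : a * p = V2 * p ^ (b + 1) := by linear_combination h + hPa
  have h5 : a = V2 * p ^ b := by
    have : a * p = (V2 * p ^ b) * p := by rw [h4]; ring
    exact mul_right_cancel₀ hp0.ne' this
  have hb0 : b = 0 := by
    by_contra hcon
    have h6 : p ^ 1 ∣ a := by
      rw [h5]
      exact (pow_dvd_pow p (by omega)).mul_left _
    have h7 := (cop_a 1 hP hPa).isUnit_of_dvd' dvd_rfl h6
    rw [pow_one, Int.isUnit_iff] at h7
    omega
  rw [hb0, pow_zero, mul_one] at h5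
  refine ⟨?_, hN1⟩
  by_contra hcon
  have := hn (by omega)
  omega

/-- `b₁ = m - 1`, `b₂ = 0` -/
theorem case1c {p P a N V1 V2 : ℤ} {n : ℕ} (hp : 3 ≤ p) (hodd : p % 2 = 1) (hPp : p ≤ P)
    (ha : 1 ≤ a) (hP : P = p ^ (n + 1)) (hPa : p * a + 1 = P + a) (hV2 : 1 ≤ V2) (hN4 : N % 4 = 0)
    (hh : p + 1 ≤ N) (e1 : 2 * V1 ≤ N) (e2 : 2 * V2 ≤ N)
    (h : (N - p) * (a + P + P * p) = 1 + V1 * (P * p) + V2) : False := by
  have hp0 : 0 < p := by linarith
  have hP0 : 0 < P := by linarith
  have hPp0 : 0 < P * p := by positivity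
  have hd2 : 2 * V2 ≤ N * P := by nlinarith
  have hN := bound1 hp hPp ha e1 hd2 h
  have hd : p ∣ N - p - 1 - V2 :=
    ⟨V1 * P - (N - p) * (a + P), by linear_combination h + (N - p) * hPa⟩
  have hV : V2 = N - p - 1 := by
    obtain ⟨y, hy⟩ := hd
    have h1 : y < 1 := by
      by_contra hcon
      have : 1 ≤ y := by omega
      nlinarith
    have h2 : -1 ≤ y := by
      by_contra hcon
      have : y ≤ -2 := by omega
      nlinarith
    have h3 : y = 0 ∨ y = -1 := by omega
    rcases h3 with rfl | rfl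
    · linarith
    · linarith
  have h3 : (N - p) * (a + P) = V1 * P := by
    have : ((N - p) * (a + P)) * p = (V1 * P) * p := by
      rw [hV] at h
      linear_combination h + (N - p) * hPa
    exact mul_right_cancel₀ hp0.ne' this
  have hc : IsCoprime P (a + P) := by
    have h4 := cop_a (n + 1) hP hPa
    rw [← hP] at h4
    have := h4.add_mul_left_right 1
    rwa [mul_one] at this
  have h5 : P ∣ N - p := hc.dvd_of_dvd_mul_right ⟨V1, by rw [h3]; ring⟩
  have h6 := Int.le_of_dvd (by linarith) h5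
  omega

theorem pow_cases {x y : ℤ} {i j : ℕ} (hx : x = 2 ^ i) (hy : y = 2 ^ j) (hlt : x < y) :
    ∃ r : ℤ, y = x * (2 * r) ∧ 1 ≤ r := by
  have hij : i < j := by
    by_contra hcon
    have : (2 : ℤ) ^ j ≤ 2 ^ i := pow_le_pow_right₀ (by norm_num) (by omega)
    rw [hx, hy] at hlt
    exact absurd hlt (not_lt.2 this)
  obtain ⟨l, rfl⟩ := Nat.exists_eq_add_of_lt hij
  exact ⟨2 ^ l, by rw [hx, hy]; ring, one_le_pow₀ (by norm_num)⟩

/-- the general facts if `b₁ = m` -/
theorem case2_gen {p P a N V1 t d : ℤ} (hp : 3 ≤ p) (hodd : p % 2 = 1) (hP : p ≤ P) (ha : 1 ≤ a)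
    (hPa : p * a + 1 = P + a) (hV1 : 1 ≤ V1) (hd : 0 ≤ d) (hN : N = V1 * (2 * t))
    (h : (N - p) * (a + P + P * p) = 1 + V1 * (P * p * p) + d) :
    ∃ c g : ℤ, c * (a + P + P * p) = 1 + V1 + d ∧ 1 ≤ c ∧ N = V1 * (p - 1) + c + p ∧
      V1 * g = p + c ∧ 2 ≤ g ∧ 2 * t = p - 1 + g := by
  have hp0 : 0 < p := by linarith
  have hP0 : 0 < P := by linarith
  have hPp0 : 0 < P * p := by positivity
  have hs : 0 < a + P + P * p := by linarith
  refine ⟨N - p - V1 * (p - 1), 2 * t - p + 1, ?_, ?_, by ring, ?_, ?_, by ring⟩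
  · linear_combination h - V1 * hPa
  · have h1 : (N - p - V1 * (p - 1)) * (a + P + P * p) = 1 + V1 + d := by
      linear_combination h - V1 * hPa
    by_contra hcon
    have h2 : N - p - V1 * (p - 1) ≤ 0 := by omega
    nlinarith
  · rw [hN]; ring
  · have h1 : (N - p - V1 * (p - 1)) * (a + P + P * p) = 1 + V1 + d := by
      linear_combination h - V1 * hPa
    have h2 : 0 < N - p - V1 * (p - 1) := by
      by_contra hcon
      have h2 : N - p - V1 * (p - 1) ≤ 0 := by omega
      nlinarith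
    have h3 : 0 < V1 * (2 * t - (p - 1)) := by
      have : V1 * (2 * t - (p - 1)) = (N - p - V1 * (p - 1)) + p := by rw [hN]; ring
      rw [this]
      linarith
    have h4 : 0 < 2 * t - (p - 1) := (pos_iff_pos_of_mul_pos h3).1 (by linarith)
    omega

/-- `b₁ = m`, `b₂ ≤ m - 2` -/
theorem case2a {p P a N V1 V2 t : ℤ} {n b : ℕ} (hp : 3 ≤ p) (hodd : p % 2 = 1) (hPp : p ≤ P)
    (ha : 1 ≤ a) (hP : P = p ^ (n + 1)) (hPa : p * a + 1 = P + a) (hV1 : 1 ≤ V1) (hV2 : 1 ≤ V2)
    (hN : N = V1 * (2 * t)) (hNe : N % 2 = 0) (e2 : 2 * V2 ≤ N) (hb : b ≤ n + 1)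
    {i j : ℕ} (hi : V1 = 2 ^ i) (hj : V2 = 2 ^ j)
    (h : (N - p) * (a + P + P * p) = 1 + V1 * (P * p * p) + V2 * p ^ b) : False := by
  have hp0 : 0 < p := by linarith
  have hP0 : 0 < P := by linarith
  have hPp0 : 0 < P * p := by positivity
  have hle : p ^ b ≤ P := by
    rw [hP]
    exact pow_le_pow_right₀ (by linarith) hb
  have hd0 : 0 < V2 * p ^ b := by positivity
  obtain ⟨c, g, hc, hc1, hNc, hg, hg2, htg⟩ := case2_gen hp hodd hPp ha hPa hV1 hd0.le hN h
  have hN0 : 0 < N := by linarith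
  have hd2 : 2 * (V2 * p ^ b) ≤ N * P := by
    have h1 : 2 * V2 * p ^ b ≤ N * p ^ b := mul_le_mul_of_nonneg_right e2 (by positivity)
    have h2 : N * p ^ b ≤ N * P := mul_le_mul_of_nonneg_left hle (by linarith)
    linarith
  have hV1c : 2 * V1 ≤ p + c := by rw [← hg]; nlinarith
  have hcp : c < p := by
    by_contra hcon
    have hcon : p ≤ c := by omega
    have h1 : 2 * (c * (a + P + P * p)) ≤ 2 + 2 * V1 + N * P := by rw [hc]; linarith
    rw [hNc] at h1
    have h2 : V1 * (p - 1) * P * 2 ≤ (p + c) * ((p - 1) * P) := by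
      have : 0 < (p - 1) * P := by apply mul_pos <;> linarith
      nlinarith
    have h3 : 0 ≤ (c - p) * (P * p) := mul_nonneg (by linarith) hPp0.le
    have h4 : 0 ≤ (c - p) * P := mul_nonneg (by linarith) hP0.le
    have h5 : 0 ≤ c * (a - 1) := mul_nonneg (by linarith) (by linarith)
    have h6 : 0 ≤ c * (P - 3) := mul_nonneg (by linarith) (by linarith)
    nlinarith
  have hV1p : V1 < p := by linarith
  have hNp : N ≤ p ^ 2 := by
    rw [hNc]
    have : 0 ≤ (p - 1 - V1) * (p - 1) := mul_nonneg (by linarith) (by linarith)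
    nlinarith
  have hpd : ∀ l : ℕ, l ≤ b → p ^ l ∣ N - 1 := fun l hl =>
    dvd_X (b := l) hP hPa (by omega) (d1 := V1 * (P * p * p)) (d2 := V2 * p ^ b)
      (by rw [hP]
          exact ((pow_dvd_pow p (by omega : l ≤ n + 3)).trans ⟨1, by ring⟩).mul_left _)
      ((pow_dvd_pow p hl).mul_left _) h
  rcases Nat.lt_or_ge 1 b with hb2 | hb2
  · have h1 := hpd 2 hb2
    have h2 := Int.le_of_dvd (by nlinarith) h1
    linarith
  · have hs : (a + P + P * p) = 1 + p * (a + P) := by linear_combination - hPa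
    interval_cases b
    · rw [pow_zero, mul_one] at hc
      have h1 : a + P + P * p ≤ 1 + V1 + V2 := by rw [← hc]; nlinarith
      have h2 : p * (1 + p) ≤ p * (a + P) := mul_le_mul_of_nonneg_left (by linarith) hp0.le
      rw [hs] at h1
      have h3 : p ^ 2 = p * p := sq p
      rw [h3] at hNp
      have h4 : 0 < p * p := by positivity
      linarith
    · have h1 := hpd 1 le_rfl
      rw [pow_one] at h1
      have h2 : p ∣ c - V1 - 1 := by
        have : c - V1 - 1 = (N - 1) - p * (V1 + 1) := by rw [hNc]; ring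
        rw [this]
        exact dvd_sub h1 ⟨_, rfl⟩
      have h3 : c = V1 + 1 := by
        have := Int.eq_zero_of_abs_lt_dvd h2 (by rw [abs_lt]; constructor <;> linarith)
        linarith
      have h4 : (V1 + 1) * (a + P) = V2 := by
        have : ((V1 + 1) * (a + P)) * p = V2 * p := by
          rw [h3, pow_one] at hc
          linear_combination hc + (V1 + 1) * hPa
        exact mul_right_cancel₀ hp0.ne' this
      have h5 : V1 = 1 := by
        have h6 : V1 + 1 ∣ 2 ^ j := ⟨a + P, by rw [← hj, h4]⟩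
        have h7 : (V1 + 1).natAbs ∣ 2 ^ j := by
          have := Int.natAbs_dvd_natAbs.2 h6
          rwa [Int.natAbs_pow] at this
        obtain ⟨l, -, hl⟩ := (Nat.dvd_prime_pow Nat.prime_two).1 h7
        have h8 : V1 + 1 = 2 ^ l := by
          have : ((V1 + 1).natAbs : ℤ) = V1 + 1 := Int.natAbs_of_nonneg (by linarith)
          rw [← this, hl]
          push_cast
          rfl
        have hl0 : l ≠ 0 := by
          rintro rfl
          rw [pow_zero] at h8
          linarith
        have hi0 : i = 0 := by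
          by_contra hi0
          obtain ⟨i', rfl⟩ := Nat.exists_eq_succ_of_ne_zero hi0
          obtain ⟨l', rfl⟩ := Nat.exists_eq_succ_of_ne_zero hl0
          rw [pow_succ] at hi h8
          omega
        rw [hi, hi0, pow_zero]
      rw [h3, h5] at hNc
      omega

/-- `b₁ = m`, `b₂ = m - 1` -/
theorem case2b {p P a N V1 V2 t : ℤ} {n : ℕ} (hp : 3 ≤ p) (hodd : p % 2 = 1) (hPp : p ≤ P)
    (ha : 1 ≤ a) (hP : P = p ^ (n + 1)) (hPa : p * a + 1 = P + a) (hn : 1 ≤ n → p ^ 2 ≤ P)
    (hV1 : 1 ≤ V1) (hV2 : 1 ≤ V2)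
    (hN : N = V1 * (2 * t)) (e2 : 2 * V2 ≤ N)
    {i j : ℕ} (hi : V1 = 2 ^ i) (hj : V2 = 2 ^ j)
    (h : (N - p) * (a + P + P * p) = 1 + V1 * (P * p * p) + V2 * (P * p)) : False := by
  have hp0 : 0 < p := by linarith
  have hP0 : 0 < P := by linarith
  have hPp0 : 0 < P * p := by positivity
  have hd0 : 0 < V2 * (P * p) := by positivity
  obtain ⟨c, g, hc, hc1, hNc, hg, hg2, htg⟩ := case2_gen hp hodd hPp ha hPa hV1 hd0.le hN h
  have hN0 : 0 < N := by linarith
  have hV1c : 2 * V1 ≤ p + c := by rw [← hg]; nlinarith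
  have hX : P * p ∣ N - 1 := by
    have e0 : P * p = p ^ (n + 2) := by rw [hP]; ring
    rw [e0]
    refine dvd_X hP hPa (by omega) ?_ ?_ h
    · rw [e0]
      exact ⟨V1 * p, by ring⟩
    · rw [e0]
      exact Dvd.intro_left _ rfl
  have hX1 : P * p ≤ N - 1 := Int.le_of_dvd (by nlinarith) hX
  have hcontra : c < p → False := by
    intro hcp
    have hV1p : V1 < p := by linarith
    have hNp : N ≤ p ^ 2 := by
      rw [hNc]
      have : 0 ≤ (p - 1 - V1) * (p - 1) := mul_nonneg (by linarith) (by linarith)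
      nlinarith
    nlinarith
  rcases le_or_gt V2 V1 with hle | hlt
  · -- `V₂ ≤ V₁`
    apply hcontra
    by_contra hcon
    have hcon : p ≤ c := by omega
    have h1 : V2 * (P * p) ≤ V1 * (P * p) := mul_le_mul_of_nonneg_right hle hPp0.le
    have h2 : 2 * V1 * (1 + P * p) ≤ (p + c) * (1 + P * p) :=
      mul_le_mul_of_nonneg_right hV1c (by linarith)
    have h3 : 0 ≤ (c - p) * (P * p) := mul_nonneg (by linarith) hPp0.le
    have h4 : 0 ≤ (c - p) * P := mul_nonneg (by linarith) hP0.le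
    have h5 : 0 ≤ c * (a - 1) := mul_nonneg (by linarith) (by linarith)
    have h6 : 0 ≤ c * (P - 3) := mul_nonneg (by linarith) (by linarith)
    nlinarith
  · obtain ⟨r, hr, hr1⟩ := pow_cases hi hj hlt
    -- `2 r ≤ t`
    have hrt : 2 * (2 * r) ≤ 2 * t := by
      have h1 : V1 * (2 * (2 * r)) ≤ V1 * (2 * t) := by
        rw [← hN]
        have : V1 * (2 * (2 * r)) = 2 * V2 := by rw [hr]; ring
        rw [this]
        exact e2
      exact le_of_mul_le_mul_left h1 (by linarith)
    have key : V1 * ((g - 2 * r) * (P * p) + g * (a + P) - 1) = 1 + p + p ^ 2 * (a + P) := by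
      rw [hr] at hc
      linear_combination hc + (a + P + P * p) * hg - p * hPa
    have hgev : g % 2 = 0 := by omega
    have ha2 : 2 * a + 1 ≤ P := by nlinarith
    have hRHS : 1 + p + p ^ 2 * (a + P) = P * p * p + P * p + P + a := by
      linear_combination (p + 1) * hPa
    have hpos : 0 < (g - 2 * r) * (P * p) + g * (a + P) - 1 := by
      have : 0 < V1 * ((g - 2 * r) * (P * p) + g * (a + P) - 1) := by
        rw [key, hRHS]
        positivity
      exact (pos_iff_pos_of_mul_pos this).1 (by linarith)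
    rcases lt_trichotomy (g - 2 * r) 0 with h1 | h1 | h1
    · -- `g - 2 r ≤ - 2`
      have h2 : g - 2 * r ≤ -2 := by omega
      have h3 : g ≤ p := by omega
      have h4 : (g - 2 * r) * (P * p) ≤ -2 * (P * p) := mul_le_mul_of_nonneg_right h2 hPp0.le
      have h5 : g * (a + P) ≤ p * (a + P) := mul_le_mul_of_nonneg_right h3 (by linarith)
      have h6 : 3 * P ≤ P * p := by nlinarith
      nlinarith
    · -- `g = 2 r`
      rw [h1, zero_mul, zero_add] at key
      obtain ⟨w, hw⟩ : ∃ w, w = a + P := ⟨_, rfl⟩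
      obtain ⟨c', hc'⟩ : ∃ c', c' = V1 * g - p ^ 2 := ⟨_, rfl⟩
      rw [← hw] at key
      have h2 : c' * w = 1 + p + V1 := by rw [hc']; linear_combination key
      have hw0 : 0 < w := by linarith
      have h3 : 1 ≤ c' := by
        by_contra hcon
        have : c' ≤ 0 := by omega
        nlinarith
      have h4 : c' * (w * g - 1) = p ^ 2 + (p + 1) * g := by
        linear_combination g * h2 - hc'
      rcases Nat.eq_zero_or_pos n with h0 | h0
      · have hPe : P = p := by rw [hP, h0]; ring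
        have hae : a = 1 := by
          rw [hPe] at hPa
          have : (p - 1) * (a - 1) = 0 := by linear_combination hPa
          rcases mul_eq_zero.1 this with h | h <;> linarith
        have hwe : w = p + 1 := by rw [hw, hae, hPe]; ring
        rw [hwe] at h4
        have h5 : p + 1 ∣ c' + 1 := ⟨(c' - 1) * g - (p - 1), by linear_combination - h4⟩
        have h6 := Int.le_of_dvd (by linarith) h5
        have h7 : (p - 1) * ((p + 1) * g - 1) ≤ (c' - 1) * ((p + 1) * g - 1) :=
          mul_le_mul_of_nonneg_right (by linarith) (by nlinarith)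
        have h8 : (p - 1) * ((p + 1) * 2 - 1) ≤ (p - 1) * ((p + 1) * g - 1) :=
          mul_le_mul_of_nonneg_left (by nlinarith) (by linarith)
        nlinarith
      · have h5 := hn h0
        have h6 : p ^ 2 + 1 ≤ w := by linarith
        have h7 : w * g - 1 ≤ p ^ 2 + (p + 1) * g := by
          rw [← h4]
          nlinarith
        have h8 : 0 ≤ (g - 2) * (w - p - 1) := mul_nonneg (by linarith) (by nlinarith)
        nlinarith
    · -- `g - 2 r ≥ 2`
      have h2 : 2 ≤ g - 2 * r := by omega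
      have hg4 : 4 ≤ g := by omega
      have h3 : 2 * (P * p) ≤ (g - 2 * r) * (P * p) := mul_le_mul_of_nonneg_right h2 hPp0.le
      have h4 : 4 * (a + P) ≤ g * (a + P) := mul_le_mul_of_nonneg_right hg4 (by linarith)
      have h5 : 2 * V1 ≤ p := by
        by_contra hcon
        have hcon : p + 1 ≤ 2 * V1 := by omega
        have h6 : (p + 1) * (2 * (P * p) + 4 * (a + P) - 1) ≤
            2 * V1 * ((g - 2 * r) * (P * p) + g * (a + P) - 1) :=
          mul_le_mul hcon (by linarith) (by linarith) (by linarith)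
        have h7 : 2 * V1 * ((g - 2 * r) * (P * p) + g * (a + P) - 1) =
            2 * (P * p * p + P * p + P + a) := by rw [← hRHS, ← key]; ring
        rw [h7] at h6
        nlinarith
      have h6 : 2 * V1 ≤ p - 1 := by omega
      have h7 : (g - p + 1) * (P * p) ≤ 2 * (g - 2 * r) * (P * p) :=
        mul_le_mul_of_nonneg_right (by linarith) hPp0.le
      have h8 : V1 * ((g - p + 1) * (P * p) + 2 * g * (a + P) - 2) ≤
          2 * (P * p * p + P * p + P + a) := by
        rw [← hRHS, ← key]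
        have : V1 * ((g - p + 1) * (P * p) + 2 * g * (a + P) - 2) ≤
            V1 * (2 * ((g - 2 * r) * (P * p) + g * (a + P) - 1)) :=
          mul_le_mul_of_nonneg_left (by linarith) (by linarith)
        linarith
      have h9 : P * p + 1 - V1 * (p - 1) ≤ V1 * g := by rw [hg]; linarith
      have h10 : (P * p + 1 - V1 * (p - 1)) * (P * p + 2 * (a + P)) ≤
          V1 * g * (P * p + 2 * (a + P)) :=
        mul_le_mul_of_nonneg_right h9 (by linarith)
      have h11 : 2 * V1 * (P * p * p) ≤ (p - 1) * (P * p * p) :=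
        mul_le_mul_of_nonneg_right h6 (by positivity)
      have h12 : (P * p + 1) * (P * p + 2 * (a + P)) ≤
          2 * (P * p * p + P * p + P + a) + 2 * V1 * (P * p * p) := by
        linear_combination h10 + h8 + 2 * V1 * hPa
      have h13 : 0 ≤ (P - p) * (P * p * p) := mul_nonneg (by linarith) (by positivity)
      have h14 : 0 ≤ (P - p) * (P * p) := mul_nonneg (by linarith) (by positivity)
      have h15 : 0 < a * (P * p) := by positivity
      have h16 : 0 ≤ (p - 3) * (P * p) := mul_nonneg (by linarith) (by positivity)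
      nlinarith

/-- `b₁ = b₂ = m` -/
theorem case2c {p P a N V1 V2 t : ℤ} (hp : 3 ≤ p) (hodd : p % 2 = 1) (hPp : p ≤ P)
    (ha : 1 ≤ a) (hPa : p * a + 1 = P + a)
    (hV1 : 1 ≤ V1) (hV2 : 1 ≤ V2) (hN : N = V1 * (2 * t))
    {i j : ℕ} (hi : V1 = 2 ^ i) (hj : V2 = 2 ^ j) (hlt : V2 < V1)
    (h : (N - p) * (a + P + P * p) = 1 + V1 * (P * p * p) + V2 * (P * p * p)) : False := by
  have hp0 : 0 < p := by linarith
  have hP0 : 0 < P := by linarith
  have hPp0 : 0 < P * p := by positivity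
  obtain ⟨r, hr, hr1⟩ := pow_cases hj hi hlt
  obtain ⟨x, hx⟩ : ∃ x, x = N - p - (V1 + V2) * (p - 1) := ⟨_, rfl⟩
  have h1 : x * (a + P + P * p) = 1 + V1 + V2 := by
    rw [hx]
    linear_combination h - (V1 + V2) * hPa
  have hs : a + P + P * p = 1 + p * (a + P) := by linear_combination - hPa
  have h2 : p * (1 + p) ≤ p * (a + P) := mul_le_mul_of_nonneg_left (by linarith) hp0.le
  have hx1 : 1 ≤ x := by
    by_contra hcon
    have : x ≤ 0 := by omega
    nlinarith
  have h3 : V2 ≤ p + x := by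
    apply Int.le_of_dvd (by linarith)
    refine ⟨2 * r * (2 * t) - (2 * r + 1) * (p - 1), ?_⟩
    rw [hx, hN, hr]
    ring
  have h4 : V1 * (2 * t - (p - 1)) = V2 * (p - 1) + p + x := by
    rw [hx, hN]
    ring
  have h5 : 0 < 2 * t - (p - 1) := by
    have : 0 < V1 * (2 * t - (p - 1)) := by
      rw [h4]
      have : 0 ≤ V2 * (p - 1) := mul_nonneg (by linarith) (by linarith)
      linarith
    exact (pos_iff_pos_of_mul_pos this).1 (by linarith)
  have h6 : 2 ≤ 2 * t - (p - 1) := by omega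
  have h7 : V1 * 2 ≤ V1 * (2 * t - (p - 1)) := mul_le_mul_of_nonneg_left h6 (by linarith)
  have h8 : V2 * (p - 1) ≤ (p + x) * (p - 1) := mul_le_mul_of_nonneg_right h3 (by linarith)
  have h9 : x * (1 + p * (1 + p)) ≤ x * (1 + p * (a + P)) :=
    mul_le_mul_of_nonneg_left (by linarith) (by linarith)
  rw [hs] at h1
  have h10 : 0 ≤ (x - 1) * (2 * (1 + p * (1 + p)) - p - 2) := mul_nonneg (by linarith) (by nlinarith)
  nlinarith

end Pool.Agent.L7h10.TwoNear
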